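import Pool.Agent.H30.Dav2

/-! A sequence of length `D(G) + 1` over `C₂ ⊕ C₂ ⊕ C₂ ⊕ C₆` all of whose non-empty zero-sum
subsequences have odd length. -/

namespace Pool.Agent.Results.MP_9fddba_co.Counterexample

/-- The Davenport constant: the least positive `t` such that every sequence of length at least `t`
has a non-empty zero-sum subsequence. -/
noncomputable def davenport (G : Type) [AddCommGroup G] : ℕ :=
  sInf {t | 0 < t ∧ ∀ S : Multiset G, t ≤ S.card → ∃ T ≤ S, T ≠ 0 ∧ T.sum = 0}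

abbrev G := ZMod 2 × ZMod 2 × ZMod 2 × ZMod 6

section aux
open Pool.Agent.H30.Dav

set_option maxRecDepth 100000
set_option synthInstance.maxSize 2000

def ψ : H →+ G := AddMonoidHom.mk'
  (fun x => (x.1 0, x.1 1, x.1 2, 3 * ((x.1 3).val : ZMod 6) + 2 * (x.2.val : ZMod 6)))
  (by decide +kernel)

lemma nineG (S : Multiset G) (h : 9 ≤ S.card) : ∃ T ≤ S, T ≠ 0 ∧ T.sum = 0 := by
  obtain ⟨S', h1, h2⟩ : ∃ S' ≤ S, S'.card = 9 := by
    induction S using Quotient.inductionOn with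
    | h l => exact ⟨(l.take 9 : List G), (List.take_sublist _ _).subperm, by simpa using h⟩
  have hs : ∀ x : G, ∃ y, ψ y = x := by decide +kernel
  choose σ hσ using hs
  obtain ⟨T, h3, h4⟩ := (nine (S'.map σ) (by simpa using h2)).map ψ
  rw [Multiset.map_map, Multiset.map_congr rfl (f := ψ ∘ σ) (g := id) fun x _ => hσ x,
    Multiset.map_id] at h3
  exact ⟨T, h3.trans h1, h4⟩

lemma sub_all (l : List G) (P : ℕ → Prop) (h : ∀ t ∈ l.sublists, t ≠ [] → t.sum = 0 → P t.length) :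
    ∀ T ≤ (l : Multiset G), T ≠ 0 → T.sum = 0 → P T.card := by
  intro T hT h0 hs
  induction T using Quotient.inductionOn with
  | h t =>
    obtain ⟨u, hu, hl⟩ := Multiset.coe_le.1 hT
    have e : (⟦t⟧ : Multiset G) = (u : Multiset G) := Multiset.coe_eq_coe.2 hu.symm
    rw [e] at h0 hs ⊢
    exact h u (List.mem_sublists.2 hl) (by simpa using h0) (by simpa using hs)

def l8 : List G := [(1,0,0,0), (0,1,0,0), (0,0,1,0), (0,0,0,1), (0,0,0,1), (0,0,0,1), (0,0,0,1),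
  (0,0,0,1)]

def l10 : List G := [(0,0,0,2), (0,0,0,2), (0,0,0,2), (1,0,0,4), (0,1,0,4), (0,0,1,4), (1,1,1,4),
  (0,0,0,1), (1,1,0,1), (1,0,1,1)]

lemma dav : davenport G = 9 := by
  refine IsLeast.csInf_eq ⟨⟨by norm_num, nineG⟩, fun t ht => ?_⟩
  by_contra hc
  obtain ⟨T, h1, h2, h3⟩ := ht.2 (l8 : Multiset G) (by simp [l8]; omega)
  exact sub_all l8 (fun _ => False) (by decide +kernel) T h1 h2 h3

end aux

theorem result : davenport (ZMod 2 × ZMod 2 × ZMod 2 × ZMod 6) = 9 ∧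
    ∃ S : Multiset (ZMod 2 × ZMod 2 × ZMod 2 × ZMod 6),
      S.card = davenport (ZMod 2 × ZMod 2 × ZMod 2 × ZMod 6) + 2 - 1 ∧
      ∀ T ≤ S, T ≠ 0 → T.sum = 0 → ∃ b ∈ ({1} : Finset ℕ), T.card ≡ b [MOD 2] :=
  ⟨dav, l10, by rw [dav]; rfl, sub_all l10 (fun k => ∃ b ∈ ({1} : Finset ℕ), k ≡ b [MOD 2])
    (by decide +kernel)⟩

end Pool.Agent.Results.MP_9fddba_co.Counterexample
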